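import Mathlib
import Pool.Agent.PrimeCircle.Defs

set_option autoImplicit false

namespace Pool.Agent.PrimeCircle

open Finset Real

/-- successor relation data: the set of pairs (entry, next entry) -/
def arcs {m : ℕ} (a : ZMod (2 * m) → ℕ) : Set (ℕ × ℕ) := Set.range fun i => (a i, a (i + 1))

lemma surj {m : ℕ} (hm : 0 < m) {a : ZMod (2 * m) → ℕ} (ha : IsPrimeCircle m a) {x : ℕ}
    (h1 : 1 ≤ x) (h2 : x ≤ 2 * m) : ∃ i, a i = x := by
  have : NeZero (2 * m) := ⟨by omega⟩
  have hc : (Finset.univ.image a).card = 2 * m := by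
    rw [Finset.card_image_of_injective _ ha.1, Finset.card_univ, ZMod.card]
  have hsub : Finset.univ.image a ⊆ Finset.Icc 1 (2 * m) := by
    intro y hy
    obtain ⟨i, -, rfl⟩ := Finset.mem_image.1 hy
    exact Finset.mem_Icc.2 (ha.2.1 i)
  have he : Finset.univ.image a = Finset.Icc 1 (2 * m) := by
    apply Finset.eq_of_subset_of_card_le hsub
    rw [hc]; simp
  have : x ∈ Finset.univ.image a := by rw [he]; exact Finset.mem_Icc.2 ⟨h1, h2⟩
  obtain ⟨i, -, hi⟩ := Finset.mem_image.1 this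
  exact ⟨i, hi⟩

/-- the successor function of an arrangement -/
noncomputable def nextOf {m : ℕ} (a : ZMod (2 * m) → ℕ) (x : Fin (2 * m)) : ℕ :=
  open Classical in if h : ∃ i, a i = x.1 + 1 then a (h.choose + 1) else 0

lemma nextOf_eq {m : ℕ} {a : ZMod (2 * m) → ℕ} (ha : Function.Injective a) (x : Fin (2 * m))
    {i : ZMod (2 * m)} (hi : a i = x.1 + 1) : nextOf a x = a (i + 1) := by
  have h : ∃ i, a i = x.1 + 1 := ⟨i, hi⟩
  rw [nextOf, dif_pos h]
  have : h.choose = i := ha (h.choose_spec.trans hi.symm)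
  rw [this]

lemma rel_of_nextOf_eq {m : ℕ} (hm : 0 < m) (a b : {a : ZMod (2 * m) → ℕ // IsPrimeCircle m a})
    (h : nextOf a.1 = nextOf b.1) : (circleSetoid m).r a b := by
  have : NeZero (2 * m) := ⟨by omega⟩
  obtain ⟨c, hc⟩ := surj hm a.2 (b.2.2.1 0).1 (b.2.2.1 0).2
  have key : ∀ n : ℕ, b.1 (n : ZMod (2 * m)) = a.1 ((n : ZMod (2 * m)) + c) := by
    intro n
    induction n with
    | zero => simpa using hc.symm
    | succ n ih =>
      obtain ⟨h1, h2⟩ := b.2.2.1 (n : ZMod (2 * m))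
      let x : Fin (2 * m) := ⟨b.1 (n : ZMod (2 * m)) - 1, by omega⟩
      have hx : b.1 (n : ZMod (2 * m)) = x.1 + 1 := by simp [x]; omega
      have e1 := nextOf_eq b.2.1 x hx
      have e2 := nextOf_eq a.2.1 x (ih ▸ hx : a.1 ((n : ZMod (2 * m)) + c) = x.1 + 1)
      rw [h, e1] at e2
      push_cast
      rw [e2]; ring_nf
  refine ⟨c, Or.inl fun i => ?_⟩
  have := key i.val
  rwa [ZMod.natCast_zmod_val] at this

/-- the possible successors -/
noncomputable def succs (m : ℕ) (x : Fin (2 * m)) : Finset ℕ :=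
  (Finset.Icc 1 (2 * m)).filter fun y => (x.1 + 1 + y).Prime

lemma card_succs (m : ℕ) (x : Fin (2 * m)) : (succs m x).card ≤ Nat.primeCounting (4 * m) := by
  rw [Nat.primeCounting, Nat.primeCounting', Nat.count_eq_card_filter_range]
  apply Finset.card_le_card_of_injOn (fun y => x.1 + 1 + y)
  · intro y hy
    simp only [succs, Finset.coe_filter, Finset.mem_Icc, Set.mem_ofPred_eq] at hy
    simp only [Finset.coe_filter, Finset.mem_range, Set.mem_ofPred_eq]
    have := x.2
    exact ⟨by omega, hy.2⟩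
  · intro y _ z _ h
    simp only at h
    omega

theorem numPrimeCircles_le (m : ℕ) (hm : 0 < m) :
    numPrimeCircles m ≤ Nat.primeCounting (4 * m) ^ (2 * m) := by
  classical
  have : NeZero (2 * m) := ⟨by omega⟩
  let T : Finset (Fin (2 * m) → ℕ) := Fintype.piFinset (succs m)
  have hT : T.card ≤ Nat.primeCounting (4 * m) ^ (2 * m) := by
    rw [Fintype.card_piFinset]
    calc ∏ i, (succs m i).card ≤ ∏ _i : Fin (2 * m), Nat.primeCounting (4 * m) :=
          Finset.prod_le_prod' fun i _ => card_succs m i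
      _ = _ := by simp
  refine le_trans ?_ hT
  let F : Quotient (circleSetoid m) → T := fun q =>
    ⟨nextOf q.out.1, by
      rw [Fintype.mem_piFinset]
      intro x
      obtain ⟨i, hi⟩ := surj hm q.out.2 (x := x.1 + 1) (by omega) (by have := x.2; omega)
      rw [nextOf_eq q.out.2.1 x hi, succs, Finset.mem_filter, Finset.mem_Icc]
      refine ⟨q.out.2.2.1 _, ?_⟩
      rw [← hi]
      exact q.out.2.2.2 i⟩
  have hF : Function.Injective F := by
    intro p q hpq
    have h1 : nextOf p.out.1 = nextOf q.out.1 := congrArg Subtype.val hpq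
    have h2 := rel_of_nextOf_eq hm _ _ h1
    have h3 : Quotient.mk (circleSetoid m) p.out = Quotient.mk (circleSetoid m) q.out :=
      Quotient.sound h2
    rwa [Quotient.out_eq, Quotient.out_eq] at h3
  have := Nat.card_le_card_of_injective F hF
  rw [numPrimeCircles]
  simpa using this

theorem primeCounting_le : ∃ C : ℝ, 0 < C ∧ ∀ m : ℕ, 2 ≤ m →
    (Nat.primeCounting (4 * m) : ℝ) ≤ C * m / Real.log m := by
  refine ⟨16 * Real.log 4 + 8, by positivity, fun m hm => ?_⟩
  have hm' : (2 : ℝ) ≤ m := by exact_mod_cast hm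
  have hlog : 0 < Real.log m := Real.log_pos (by linarith)
  have h := Chebyshev.pi_le_log4_mul_div (x := ((4 * m : ℕ) : ℝ)) (by push_cast; linarith)
  rw [Nat.floor_natCast] at h
  refine h.trans ?_
  push_cast
  have hs : Real.log (√(4 * (m : ℝ))) = (Real.log 4 + Real.log m) / 2 := by
    rw [Real.log_sqrt (by positivity), Real.log_mul (by norm_num) (by positivity)]
  rw [hs]
  have h4 : 0 < Real.log 4 := Real.log_pos (by norm_num)
  have h1 : Real.log 4 * (4 * (m : ℝ)) / ((Real.log 4 + Real.log m) / 2) ≤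
      16 * Real.log 4 * m / Real.log m := by
    rw [div_le_div_iff₀ (by positivity) hlog]
    nlinarith [mul_pos h4 hlog, mul_pos (mul_pos h4 hlog) (by linarith : (0:ℝ) < m),
      mul_pos (mul_pos h4 h4) (by linarith : (0:ℝ) < m)]
  have h2 : √(4 * (m : ℝ)) ≤ 8 * m / Real.log m := by
    rw [le_div_iff₀ hlog]
    have e1 : √(4 * (m : ℝ)) = 2 * √(m : ℝ) := by
      rw [Real.sqrt_mul (by norm_num)]
      congr 1
      rw [show (4 : ℝ) = 2 ^ 2 by norm_num]
      exact Real.sqrt_sq (by norm_num)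
    have e2 : Real.log m ≤ 2 * √(m : ℝ) := by
      have h5 : Real.log (√(m : ℝ)) ≤ √(m : ℝ) - 1 :=
        Real.log_le_sub_one_of_pos (Real.sqrt_pos.2 (by linarith))
      rw [Real.log_sqrt (by linarith)] at h5
      linarith [Real.sqrt_nonneg (m : ℝ)]
    rw [e1]
    have e3 : √(m : ℝ) * √(m : ℝ) = m := Real.mul_self_sqrt (by linarith)
    nlinarith [Real.sqrt_nonneg (m : ℝ)]
  calc _ ≤ 16 * Real.log 4 * m / Real.log m + 8 * m / Real.log m := add_le_add h1 h2
    _ = _ := by ring

theorem main : ∃ C : ℝ, 0 < C ∧ ∀ m : ℕ, 2 ≤ m →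
    (numPrimeCircles m : ℝ) ≤ (C * m / Real.log m) ^ (2 * m) := by
  obtain ⟨C, hC, h⟩ := primeCounting_le
  refine ⟨C, hC, fun m hm => ?_⟩
  calc (numPrimeCircles m : ℝ) ≤ ((Nat.primeCounting (4 * m) ^ (2 * m) : ℕ) : ℝ) := by
        exact_mod_cast numPrimeCircles_le m (by omega)
    _ = (Nat.primeCounting (4 * m) : ℝ) ^ (2 * m) := by push_cast; rfl
    _ ≤ _ := pow_le_pow_left₀ (by positivity) (h m hm) _

end Pool.Agent.PrimeCircle
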